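import Mathlib
import Pool.Agent.MP_0f1eb7_ag.cyl.All

/-! A flat family of affine 9-spaces over affine 4-space without a cylinder. -/

set_option autoImplicit false
open AlgebraicGeometry CategoryTheory CategoryTheory.Limits MvPolynomial

namespace Pool.Agent.Results.MP_0f1eb7_ag.Form

open Pool.Agent.MP_0f1eb7_ag.Cyl Pool.Agent.MP_0f1eb7_ag.Cyl.FibAlgP

theorem fib_alg (m : Ideal Rt) (hm : m.IsMaximal) (hX : (∏ j, X j : Rt) ∉ m) :
    Nonempty ((Bt ⧸ m.map (algebraMap Rt Bt)) ≃ₐ[ℂ] MvPolynomial (Fin 9) ℂ) := by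
  obtain ⟨a, rfl⟩ := (isMaximal_iff_eq_vanishingIdeal_singleton (K := ℂ)).1 hm
  choose r hr using fun j => IsAlgClosed.exists_pow_nat_eq (a j) two_pos
  obtain rfl : a = fun j => r j ^ 2 := funext fun j => (hr j).symm
  have h0 : ∀ j, r j ≠ 0 := fun j e => hX <| by
    rw [mem_vanishingIdeal_singleton_iff, map_prod]
    exact Finset.prod_eq_zero (Finset.mem_univ j) (by simp [e])
  let ψ : Bt →ₐ[ℂ] Py := (sp r).comp valB
  have e : (vanishingIdeal ℂ {fun j => r j ^ 2}).map (algebraMap Rt Bt) = RingHom.ker ψ := by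
    refine le_antisymm (Ideal.map_le_iff_le_comap.2 fun p hp => ?_) fun F hF =>
      ker_le r (rey thS) h0 _ (fun j => Ideal.mem_map_of_mem (algebraMap Rt Bt) ?_) hF
    · show sp r (sqr p) = 0
      rw [sp_sqr, (mem_vanishingIdeal_singleton_iff _ _).1 hp, map_zero]
    · rw [mem_vanishingIdeal_singleton_iff]
      simp
  exact ⟨(Ideal.quotientEquivAlgOfEq ℂ e).trans ((Ideal.quotientKerAlgEquivOfSurjective
    (f := ψ) (surj r (semi thS) h0)).trans (renameEquiv ℂ finProdFinEquiv))⟩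

theorem result :
    ∃ (B : Type) (_ : CommRing B) (_ : IsDomain B) (_ : Algebra ℂ B)
      (_ : Algebra (MvPolynomial (Fin 4) ℂ) B) (_ : IsScalarTower ℂ (MvPolynomial (Fin 4) ℂ) B),
      Algebra.FiniteType ℂ B ∧ Module.Flat (MvPolynomial (Fin 4) ℂ) B ∧
      (∀ m : Ideal (MvPolynomial (Fin 4) ℂ), m.IsMaximal →
        (∏ j, MvPolynomial.X j : MvPolynomial (Fin 4) ℂ) ∉ m →
        Nonempty ((B ⧸ m.map (algebraMap (MvPolynomial (Fin 4) ℂ) B)) ≃ₐ[ℂ]
          MvPolynomial (Fin 9) ℂ)) ∧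
      ∀ U : (Spec (CommRingCat.of (MvPolynomial (Fin 4) ℂ))).Opens,
        (U : Set (Spec (CommRingCat.of (MvPolynomial (Fin 4) ℂ)))).Nonempty →
        ¬∃ e : (Spec.map (CommRingCat.ofHom (algebraMap (MvPolynomial (Fin 4) ℂ) B)) ⁻¹ᵁ
              U).toScheme ≅
            pullback (U.ι ≫ Spec.map (CommRingCat.ofHom (algebraMap ℂ (MvPolynomial (Fin 4) ℂ))))
              (Spec.map (CommRingCat.ofHom (algebraMap ℂ (MvPolynomial (Fin 9) ℂ)))),
          e.hom ≫ pullback.fst _ _ =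
            Spec.map (CommRingCat.ofHom (algebraMap (MvPolynomial (Fin 4) ℂ) B)) ∣_ U := by
  haveI : IsDomain Bt := Function.Injective.isDomain valB.toRingHom valB_inj
  refine ⟨Bt, inferInstance, inferInstance, inferInstance, inferInstance, inferInstance,
    all_ft, glue_flat all_flat, fib_alg, ?_⟩
  rintro U hU ⟨e, he⟩
  obtain ⟨x, hx⟩ := Pool.Agent.CYL.generic_coords 9 Rt Bt U hU e he
  exact glue_no all_red all_mat x hx

end Pool.Agent.Results.MP_0f1eb7_ag.Form
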